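import Pool.Agent.Helper97.TI.Defs

/-!
# MP_17e24e_ag, module DIM : chains of primes above the kernel
-/

set_option autoImplicit false
open MvPolynomial

noncomputable section

namespace TI

section DIM

/-- dimension does not go up in integral extensions -/
private theorem DIM_integral {B A : Type} [CommRing B] [CommRing A] (g : B →+* A)
    (hg : g.IsIntegral) : ringKrullDim A ≤ ringKrullDim B := by
  let := g.toAlgebra
  refine Order.krullDim_le_of_strictMono (PrimeSpectrum.comap (algebraMap B A)) ?_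
  intro P Q hPQ
  have hle : P.asIdeal ≤ Q.asIdeal := hPQ.le
  have hne : P.asIdeal ≠ Q.asIdeal := fun h => hPQ.ne (PrimeSpectrum.ext h)
  obtain ⟨x, hxQ, hxP⟩ := SetLike.exists_of_lt (lt_of_le_of_ne hle hne)
  have h := Ideal.comap_lt_comap_of_integral_mem_sdiff (R := B) (S := A) hle ⟨hxQ, hxP⟩ (hg x)
  exact h

/-- DIM: chains of primes above the kernel of `R → K` -/
theorem chain_le {κ n : ℕ} {K : Type} [Field K] [Algebra ℂ K] [Algebra (RR κ) K]
    [IsScalarTower ℂ (RR κ) K]
    (hfrac : ∀ f : K, ∃ a b : RR κ, algebraMap (RR κ) K b ≠ 0 ∧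
      f = algebraMap (RR κ) K a / algebraMap (RR κ) K b)
    (x : Fin n → K) (hx : IsTranscendenceBasis ℂ x) (l : LTSeries (PrimeSpectrum (RR κ)))
    (hl : RingHom.ker (algebraMap (RR κ) K) ≤ l.head.asIdeal) : l.length ≤ n := by
  set 𝔭 := RingHom.ker (algebraMap (RR κ) K) with h𝔭
  have hne : 𝔭 ≠ ⊤ := RingHom.ker_ne_top _
  obtain ⟨s, -, g, hginj, hgint⟩ := exists_integral_inj_algHom_of_quotient 𝔭 hne
  let ι : (RR κ ⧸ 𝔭) →ₐ[ℂ] K :=
    Ideal.Quotient.liftₐ 𝔭 (IsScalarTower.toAlgHom ℂ (RR κ) K) (fun a ha => ha)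
  have hι : ∀ a : RR κ, ι (Ideal.Quotient.mk 𝔭 a) = algebraMap (RR κ) K a := fun a => rfl
  have hιinj : Function.Injective ι := by
    rw [injective_iff_map_eq_zero]
    intro a ha
    obtain ⟨a, rfl⟩ := Ideal.Quotient.mk_surjective a
    rw [hι] at ha
    exact Ideal.Quotient.eq_zero_iff_mem.2 ha
  -- the transcendence basis coming from the normalization
  let y : Fin s → K := fun j => ι (g (X j))
  have hy : (aeval y : MvPolynomial (Fin s) ℂ →ₐ[ℂ] K) = ι.comp g := by
    apply MvPolynomial.algHom_ext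
    intro j
    simp [y]
  have hyind : AlgebraicIndependent ℂ y := by
    rw [AlgebraicIndependent, hy]
    exact hιinj.comp hginj
  have halg0 : ∀ a : RR κ, IsAlgebraic (Algebra.adjoin ℂ (Set.range y)) (algebraMap (RR κ) K a) := by
    intro a
    let := g.toRingHom.toAlgebra
    have h1 : IsIntegral (MvPolynomial (Fin s) ℂ) (Ideal.Quotient.mk 𝔭 a) :=
      hgint (Ideal.Quotient.mk 𝔭 a)
    have h2 : (algebraMap (Algebra.adjoin ℂ (Set.range y)) K).comp
        (hyind.aevalEquiv.toRingEquiv.toRingHom) =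
        ι.toRingHom.comp (algebraMap (MvPolynomial (Fin s) ℂ) (RR κ ⧸ 𝔭)) := by
      apply RingHom.ext
      intro p
      have h3 : ((hyind.aevalEquiv p : Algebra.adjoin ℂ (Set.range y)) : K) = aeval y p :=
        hyind.algebraMap_aevalEquiv p
      have h4 : aeval y p = ι (g p) := by rw [hy]; rfl
      exact h3.trans h4
    exact (IsIntegral.map_of_comp_eq _ _ h2 h1).isAlgebraic
  have hybas : IsTranscendenceBasis ℂ y := by
    rw [hyind.isTranscendenceBasis_iff_isAlgebraic]
    refine ⟨fun f => ?_⟩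
    obtain ⟨a, b, hb, rfl⟩ := hfrac f
    rw [div_eq_mul_inv]
    exact (halg0 a).mul (halg0 b).inv
  have hcard : Cardinal.mk (Fin n) = Cardinal.mk (Fin s) := hx.cardinalMk_eq hybas
  have hns : n = s := by simpa using hcard
  subst hns
  have h1 : (l.length : WithBot ℕ∞) ≤ ringKrullDim (RR κ ⧸ 𝔭) := by
    rw [ringKrullDim_quotient]
    let l' : LTSeries (PrimeSpectrum.zeroLocus (R := RR κ) 𝔭) :=
      ⟨l.length, fun i => ⟨l i, fun a ha => (LTSeries.monotone l (Fin.zero_le i)) (hl ha)⟩,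
        fun i => l.step i⟩
    exact Order.LTSeries.length_le_krullDim l'
  have h2 : ringKrullDim (RR κ ⧸ 𝔭) ≤ ringKrullDim (MvPolynomial (Fin n) ℂ) :=
    DIM_integral g.toRingHom hgint
  have h3 : ringKrullDim (MvPolynomial (Fin n) ℂ) = n := by
    rw [MvPolynomial.ringKrullDim_of_isNoetherianRing]
    simp
  have h4 := h1.trans (h2.trans h3.le)
  exact_mod_cast h4

end DIM

end TI
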