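import Pool.Agent.Helper97.TI.Defs

/-!
# MP_17e24e_ag, module E1 : Euler's formula for the trace of a simple extension
-/

set_option autoImplicit false
open MvPolynomial

noncomputable section

namespace TI

section E1

open IntermediateField Polynomial

/-- General form of the trace duality statement. -/
private theorem E1_gen {A k K : Type} [CommRing A] [IsDomain A] [IsIntegrallyClosed A] [Field k]
    [Field K] [CharZero k] [Algebra A k] [IsFractionRing A k] [Algebra k K] [Algebra A K]
    [IsScalarTower A k K] [FiniteDimensional k K] (t : K) (ht : IsIntegral A t)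
    (N : Set K) (hN : ∀ b ∈ Algebra.adjoin A {t}, ∀ ν ∈ N, b * ν ∈ N) (J : K) :
    (∀ ν ∈ N, ∃ a : A, Algebra.trace k K (ν / J) = algebraMap A k a) ↔
    (∀ ν ∈ N, ((Algebra.trace k⟮t⟯ K (ν * aeval t (derivative (minpoly k t)) / J) : k⟮t⟯) : K) ∈
      Algebra.adjoin A {t}) := by
  set g : k⟮t⟯ := AdjoinSimple.gen k t with hg
  have hgt : (g : K) = t := AdjoinSimple.coe_gen k t
  have hgt' : algebraMap k⟮t⟯ K g = t := AdjoinSimple.algebraMap_gen k t
  have : IsScalarTower A k⟮t⟯ K := IsScalarTower.of_algebraMap_eq' rfl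
  have htop : Algebra.adjoin k {g} = ⊤ := by
    have := (IntermediateField.adjoin.powerBasis (K := k) (x := t)
      (Algebra.IsIntegral.isIntegral t)).adjoin_gen_eq_top
    simpa [hg] using this
  have hgint : IsIntegral A g := by
    rw [← isIntegral_algebraMap_iff (algebraMap k⟮t⟯ K).injective, hgt']
    exact ht
  have hmin : minpoly k g = minpoly k t :=
    (minpoly.algebraMap_eq (algebraMap k⟮t⟯ K).injective g).symm.trans (congrArg (minpoly k) hgt')
  have hsep : (aeval g (derivative (minpoly k g)) : k⟮t⟯) ≠ 0 :=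
    (Algebra.IsSeparable.isSeparable k g).aeval_derivative_ne_zero (minpoly.aeval k g)
  set p : k⟮t⟯ := aeval g (derivative (minpoly k g)) with hp
  have hpt : (p : K) = aeval t (derivative (minpoly k t)) := by
    rw [hp, hmin]
    have h1 := aeval_algebraMap_apply K g (derivative (minpoly k t))
    have h2 : aeval (algebraMap k⟮t⟯ K g) (derivative (minpoly k t)) =
      aeval t (derivative (minpoly k t)) := congrArg (fun z => Polynomial.aeval z (derivative (minpoly k t))) hgt'
    exact h1.symm.trans h2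
  have hmemB : ∀ b : k⟮t⟯, b ∈ Algebra.adjoin A {g} ↔ (b : K) ∈ Algebra.adjoin A {t} := by
    intro b
    have : Algebra.adjoin A {t} = (Algebra.adjoin A {g}).map (IsScalarTower.toAlgHom A k⟮t⟯ K) := by
      rw [AlgHom.map_adjoin_singleton]
      exact congrArg (fun z => Algebra.adjoin A {z}) hgt'.symm
    rw [this, Subalgebra.mem_map]
    constructor
    · intro h
      exact ⟨b, h, rfl⟩
    · rintro ⟨b', h, h'⟩
      have : b' = b := (algebraMap k⟮t⟯ K).injective h'
      rw [← this]
      exact h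
  have hdual := traceForm_dualSubmodule_adjoin A k htop hgint
  have htr : ∀ x : K, Algebra.trace k K x = Algebra.trace k k⟮t⟯ (Algebra.trace k⟮t⟯ K x) :=
    fun x => (Algebra.trace_trace x).symm
  have hlin : ∀ (b : k⟮t⟯) (x : K),
      Algebra.trace k⟮t⟯ K ((b : K) * x) = b * Algebra.trace k⟮t⟯ K x := by
    intro b x
    have := (Algebra.trace k⟮t⟯ K).map_smul b x
    simpa [Algebra.smul_def] using this
  have hmul : ∀ ν : K, Algebra.trace k⟮t⟯ K (ν * aeval t (derivative (minpoly k t)) / J) =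
      p * Algebra.trace k⟮t⟯ K (ν / J) := by
    intro ν
    rw [← hlin, hpt]
    congr 1
    ring
  have hmemD : ∀ x : k⟮t⟯, x ∈ (Algebra.traceForm k k⟮t⟯).dualSubmodule
      (Subalgebra.toSubmodule (Algebra.adjoin A {g})) ↔ p * x ∈ Algebra.adjoin A {g} := by
    intro x
    rw [hdual]
    constructor
    · intro h
      obtain ⟨y, hy, rfl⟩ := (Submodule.mem_smul_pointwise_iff_exists _ _ _).1 h
      rw [smul_eq_mul, ← mul_assoc, mul_inv_cancel₀ hsep, one_mul]
      exact hy
    · intro h
      refine (Submodule.mem_smul_pointwise_iff_exists _ _ _).2 ⟨p * x, h, ?_⟩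
      rw [smul_eq_mul, ← mul_assoc, inv_mul_cancel₀ hsep, one_mul]
  have hD : ∀ x : k⟮t⟯, p * x ∈ Algebra.adjoin A {g} ↔
      ∀ y ∈ Algebra.adjoin A {g}, ∃ a : A, Algebra.trace k k⟮t⟯ (x * y) = algebraMap A k a := by
    intro x
    rw [← hmemD, LinearMap.BilinForm.mem_dualSubmodule]
    simp only [Submodule.mem_one, Subalgebra.mem_toSubmodule, Algebra.traceForm_apply]
    constructor
    · intro h y hy
      obtain ⟨a, ha⟩ := h y hy
      exact ⟨a, ha.symm⟩
    · intro h y hy
      obtain ⟨a, ha⟩ := h y hy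
      exact ⟨a, ha.symm⟩
  constructor
  · intro h ν hν
    rw [hmul, ← hmemB, hD]
    intro y hy
    obtain ⟨a, ha⟩ := h ((y : K) * ν) (hN _ ((hmemB y).1 hy) ν hν)
    refine ⟨a, ?_⟩
    rw [← ha, htr, mul_div_assoc, hlin, mul_comm]
  · intro h ν hν
    have h1 := h ν hν
    rw [hmul, ← hmemB, hD] at h1
    obtain ⟨a, ha⟩ := h1 1 (one_mem _)
    refine ⟨a, ?_⟩
    rw [← ha, htr, mul_one]

variable {K : Type} [Field K] [Algebra ℂ K]

open scoped IntermediateField.algebraAdjoinAdjoin in
/-- E1: Euler's formula.  `P` is the minimal polynomial of `t` over `ℂ(c)`. -/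
theorem TT_iff {n : ℕ} (c : Fin n → K) (hc : AlgebraicIndependent ℂ c) (t : K)
    (ht : IsIntegral (Algebra.adjoin ℂ (Set.range c)) t)
    [FiniteDimensional (IntermediateField.adjoin ℂ (Set.range c)) K]
    (N : Submodule (Algebra.adjoin ℂ (Set.range c ∪ {t})) K) (J : K) (hJ : J ≠ 0) :
    (∀ ν ∈ N, trc c (ν / J) ∈ Algebra.adjoin ℂ (Set.range c)) ↔
    (∀ ν ∈ N, ((Algebra.trace (IntermediateField.adjoin ℂ (Set.range c ∪ {t})) K
        (ν * (Polynomial.aeval t (Polynomial.derivative
          (minpoly (IntermediateField.adjoin ℂ (Set.range c)) t))) / J) :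
        IntermediateField.adjoin ℂ (Set.range c ∪ {t})) : K) ∈
      Algebra.adjoin ℂ (Set.range c ∪ {t})) := by
  set A := Algebra.adjoin ℂ (Set.range c) with hA
  set k := IntermediateField.adjoin ℂ (Set.range c) with hk
  have : IsIntegrallyClosed A := IsIntegrallyClosed.of_equiv hc.aevalEquiv.toRingEquiv
  have hC : ∀ b : K, b ∈ Algebra.adjoin ℂ (Set.range c ∪ {t}) ↔ b ∈ Algebra.adjoin A {t} := by
    intro b
    rw [Algebra.adjoin_union_eq_adjoin_adjoin]
    exact Iff.rfl
  have hgen := E1_gen (A := A) (k := k) t ht (N : Set K)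
    (by
      intro b hb ν hν
      exact N.smul_mem ⟨b, (hC b).2 hb⟩ hν) J
  have hK' : IntermediateField.adjoin ℂ (Set.range c ∪ {t}) =
      (k⟮t⟯).restrictScalars ℂ := (IntermediateField.adjoin_adjoin_left ℂ (Set.range c) {t}).symm
  have htrK : ∀ x : K, ((Algebra.trace (IntermediateField.adjoin ℂ (Set.range c ∪ {t})) K x :
      IntermediateField.adjoin ℂ (Set.range c ∪ {t})) : K) = ((Algebra.trace k⟮t⟯ K x : k⟮t⟯) : K) := by
    intro x
    rw [hK']
    rfl
  have hleft : (∀ ν ∈ N, trc c (ν / J) ∈ A) ↔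
      (∀ ν ∈ (N : Set K), ∃ a : A, Algebra.trace k K (ν / J) = algebraMap A k a) := by
    refine forall₂_congr fun ν hν => ?_
    constructor
    · intro h
      exact ⟨⟨_, h⟩, Subtype.ext rfl⟩
    · rintro ⟨a, ha⟩
      have : trc c (ν / J) = (a : K) := by
        show ((Algebra.trace k K (ν / J) : k) : K) = _
        rw [ha]
        rfl
      rw [this]
      exact a.2
  rw [hleft, hgen]
  refine forall₂_congr fun ν hν => ?_
  rw [htrK, hC]

end E1

end TI
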